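import Pool.Agent.Helper45.RBC.CHP

/-!
# The projector on the image of a holomorphic self-adjoint endomorphism field of a bundle of rank `m`
-/

open Complex Metric Set Filter Topology MeasureTheory
open scoped ContDiff ComplexConjugate ComplexOrder Manifold Matrix

namespace Pool.Agent.Helper29.HL

open Pool.Agent.Helper95.Lin Pool.Agent.Helper16.Abund Pool.Agent.Helper92.Orb
  Pool.Agent.Helper10.SP Pool.Agent.Helper95.RK Pool.Agent.Helper57.HS
  Pool.Agent.Helper15.HS
open Pool.Agent.Helper45.RBC (const_of_im aeval_conj' aeval_diag diff_prod diag_A det_conj_diag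
  trace_conj_diag ev ev_sq ev_mul)

universe u v

variable {n m : ℕ}

theorem diff_powE {T : Set (Cn n)} {A : Cn n → Matrix (Fin m) (Fin m) ℂ}
    (hA : ∀ i j, DifferentiableOn ℂ (fun x => A x i j) T) (k : ℕ) :
    ∀ i j, DifferentiableOn ℂ (fun x => (A x ^ k) i j) T := by
  induction k with
  | zero =>
    intro i j
    simp only [pow_zero]
    exact differentiableOn_const _
  | succ k ih =>
    intro i j
    simp only [pow_succ, Matrix.mul_apply]
    exact DifferentiableOn.fun_sum fun l _ => (ih i l).mul (hA l j)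

theorem diff_aevalE {T : Set (Cn n)} {A : Cn n → Matrix (Fin m) (Fin m) ℂ}
    (hA : ∀ i j, DifferentiableOn ℂ (fun x => A x i j) T) (p : Polynomial ℝ) :
    ∀ i j, DifferentiableOn ℂ (fun x => (Polynomial.aeval (A x) p) i j) T := by
  intro i j
  simp only [Polynomial.aeval_eq_sum_range, Matrix.sum_apply, Matrix.smul_apply]
  exact DifferentiableOn.fun_sum fun k _ => (diff_powE hA k i j).fun_const_smul _

theorem diff_detE {T : Set (Cn n)} {A : Cn n → Matrix (Fin m) (Fin m) ℂ}
    (hA : ∀ i j, DifferentiableOn ℂ (fun x => A x i j) T) :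
    DifferentiableOn ℂ (fun x => (A x).det) T := by
  simp only [Matrix.det_apply']
  refine DifferentiableOn.fun_sum fun σ _ => DifferentiableOn.const_mul ?_ _
  exact diff_prod Finset.univ fun i => hA _ _

/-- The number of nonzero `μ i` is determined by `∏ (1 + t μ i)`. -/
theorem card_of_prod {μ ν : Fin m → ℝ}
    (h : ∀ t : ℝ, ∏ i, (1 + t * μ i) = ∏ i, (1 + t * ν i)) : ∑ i, ev (μ i) = ∑ i, ev (ν i) := by
  have hP : (∏ i, (1 + Polynomial.C (μ i) * Polynomial.X) : Polynomial ℝ) =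
      ∏ i, (1 + Polynomial.C (ν i) * Polynomial.X) := by
    refine Polynomial.funext fun t => ?_
    simp only [Polynomial.eval_prod, Polynomial.eval_add, Polynomial.eval_one,
      Polynomial.eval_mul, Polynomial.eval_C, Polynomial.eval_X]
    have := h t
    simpa only [mul_comm] using this
  have hne : ∀ a : ℝ, (1 + Polynomial.C a * Polynomial.X : Polynomial ℝ) ≠ 0 := by
    intro a h0
    have := congrArg (Polynomial.eval 0) h0
    simp at this
  have hd : ∀ a : ℝ, (((1 + Polynomial.C a * Polynomial.X : Polynomial ℝ).natDegree : ℕ) : ℝ) =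
      ev a := by
    intro a
    by_cases ha : a = 0
    · subst ha
      simp [ev]
    · rw [add_comm, ← Polynomial.C_1, Polynomial.natDegree_linear ha]
      simp [ev, ha]
  have h1 := congrArg (fun p : Polynomial ℝ => ((p.natDegree : ℕ) : ℝ)) hP
  rw [Polynomial.natDegree_prod _ _ fun i _ => hne _,
    Polynomial.natDegree_prod _ _ fun i _ => hne _] at h1
  push_cast at h1
  simp only [hd] at h1
  exact h1

/-- HCH. The projector. -/
theorem hch {T : Set (Cn n)} {G : Type u} [Group G] {R : G → Cn n → Cn n → Prop}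
    (hE : Et T R) {h A : Cn n → Matrix (Fin m) (Fin m) ℂ} (hh : ∀ x ∈ T, (h x).PosDef)
    (hA : ∀ i j, DifferentiableOn ℂ (fun x => A x i j) T)
    (hpsd : ∀ x ∈ T, (A x * h x).PosSemidef)
    (hdetI : ∀ t : ℝ, ∀ γ x y, R γ x y →
      (1 + (t : ℂ) • A y).det = (1 + (t : ℂ) • A x).det) :
    ∃ (r : ℕ) (P : Cn n → Matrix (Fin m) (Fin m) ℂ) (p : Polynomial ℝ), r ≤ m ∧
      p.eval 0 = 0 ∧ (∀ x, P x = Polynomial.aeval (A x) p) ∧
      (∀ i j, DifferentiableOn ℂ (fun x => P x i j) T) ∧ (∀ x ∈ T, P x * P x = P x) ∧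
      (∀ x ∈ T, P x * h x = h x * (P x)ᴴ) ∧ (∀ x ∈ T, Matrix.trace (P x) = r) ∧
      (∀ x ∈ T, P x * A x = A x ∧ A x * P x = A x) ∧
      (∃ α : ℝ, 0 < α ∧ ∀ x ∈ T, α ≤ (A x + (1 - P x)).det.re) ∧
      ∃ c : ℝ, 0 < c ∧ ∀ x ∈ T, (A x * h x - (c : ℂ) • (P x * h x)).PosSemidef := by
  obtain ⟨x₀, hx₀⟩ := hE.nonempty
  obtain ⟨M₀, M₀', μ₀, a1, a2, a3, a4, a5⟩ := diag_A (hh x₀ hx₀) (hpsd x₀ hx₀)
  -- determinants in diagonal form
  have hdd : ∀ (N N' : Matrix (Fin m) (Fin m) ℂ) (ν : Fin m → ℝ) (t : ℝ), N * N' = 1 →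
      (1 + (t : ℂ) • (N * Matrix.diagonal (fun i => (ν i : ℂ)) * N')).det =
        ((∏ i, (1 + t * ν i) : ℝ) : ℂ) := by
    intro N N' ν t h
    have h2 : (Matrix.diagonal fun i => ((1 + t * ν i : ℝ) : ℂ)) =
        1 + (t : ℂ) • Matrix.diagonal fun i => (ν i : ℂ) := by
      ext i j
      by_cases hij : i = j
      · subst hij; simp
      · simp [Matrix.diagonal_apply_ne _ hij, Matrix.one_apply_ne hij]
    rw [Complex.ofReal_prod, ← det_conj_diag h, h2, Matrix.mul_add, Matrix.add_mul,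
      Matrix.mul_smul, Matrix.smul_mul, Matrix.mul_one, h]
  -- the eigenvalues are constant
  have hdet : ∀ (t : ℝ), ∀ x ∈ T, (1 + (t : ℂ) • A x).det = (1 + (t : ℂ) • A x₀).det := by
    intro t
    refine const_of_im hE (f := fun x => (1 + (t : ℂ) • A x).det) ?_ ?_ ?_ hx₀
    · refine diff_detE fun i j => ?_
      simp only [Matrix.add_apply, Matrix.smul_apply, smul_eq_mul]
      exact (differentiableOn_const _).add ((hA i j).const_mul _)
    · intro x hx
      obtain ⟨M, M', μ, b1, b2, b3, b4, b5⟩ := diag_A (hh x hx) (hpsd x hx)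
      show ((1 + (t : ℂ) • A x).det).im = 0
      rw [b4, hdd M M' μ t b1, Complex.ofReal_im]
    · intro γ x y hxy
      exact (hdetI t γ x y hxy).symm
  have hprod : ∀ x ∈ T, ∀ (M M' : Matrix (Fin m) (Fin m) ℂ) (μ : Fin m → ℝ), M * M' = 1 →
      A x = M * Matrix.diagonal (fun i => (μ i : ℂ)) * M' →
      ∀ t : ℝ, ∏ i, (1 + t * μ i) = ∏ i, (1 + t * μ₀ i) := by
    intro x hx M M' μ b1 b4 t
    have h3 := hdet t x hx
    rw [b4, a4, hdd M M' μ t b1, hdd M₀ M₀' μ₀ t a1] at h3
    exact_mod_cast h3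
  have hspec : ∀ x ∈ T, ∀ (M M' : Matrix (Fin m) (Fin m) ℂ) (μ : Fin m → ℝ), M * M' = 1 →
      A x = M * Matrix.diagonal (fun i => (μ i : ℂ)) * M' → ∀ i, μ i = 0 ∨ ∃ k, μ i = μ₀ k := by
    intro x hx M M' μ b1 b4 i
    by_cases h0 : μ i = 0
    · exact Or.inl h0
    refine Or.inr ?_
    have h3 := hprod x hx M M' μ b1 b4 (- (μ i)⁻¹)
    have h4 : ∏ k, (1 + (- (μ i)⁻¹) * μ k) = 0 := by
      refine Finset.prod_eq_zero (Finset.mem_univ i) ?_
      field_simp
      ring
    rw [h4] at h3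
    obtain ⟨k, -, hk⟩ := Finset.prod_eq_zero_iff.1 h3.symm
    refine ⟨k, ?_⟩
    field_simp at hk
    linarith
  -- the polynomial
  let s : Finset ℝ := insert 0 (Finset.univ.image μ₀)
  let p : Polynomial ℝ := Lagrange.interpolate s id ev
  have hp : ∀ t ∈ s, p.eval t = ev t := by
    intro t ht
    exact Lagrange.eval_interpolate_at_node (s := s) (v := id) ev
      (Function.injective_id.injOn) ht
  have hp0 : p.eval 0 = 0 := by
    rw [hp 0 (Finset.mem_insert_self _ _)]
    simp [ev]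
  -- the positive lower bound of the nonzero eigenvalues
  obtain ⟨c, hc, hc1, hcb⟩ : ∃ c : ℝ, 0 < c ∧ c ≤ 1 ∧ ∀ k, μ₀ k ≠ 0 → c ≤ μ₀ k := by
    let w : Fin m → ℝ := fun k => if μ₀ k = 0 then 1 else μ₀ k
    have hw : ∀ k, 0 < w k := by
      intro k
      simp only [w]
      split_ifs with h0
      · exact one_pos
      · exact lt_of_le_of_ne (a5 k) (Ne.symm h0)
    obtain ⟨c, hc, hcw⟩ : ∃ c : ℝ, 0 < c ∧ ∀ k, c ≤ w k := by
      rcases isEmpty_or_nonempty (Fin m) with he | hne
      · exact ⟨1, one_pos, fun k => (he.false k).elim⟩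
      · obtain ⟨k, -, hk⟩ := Finset.exists_min_image Finset.univ w Finset.univ_nonempty
        exact ⟨w k, hw k, fun j => hk j (Finset.mem_univ j)⟩
    refine ⟨min c 1, lt_min hc one_pos, min_le_right _ _, fun k hk => ?_⟩
    have := hcw k
    simp only [w, if_neg hk] at this
    exact (min_le_left _ _).trans this
  let P : Cn n → Matrix (Fin m) (Fin m) ℂ := fun x => Polynomial.aeval (A x) p
  have hPdiag : ∀ x ∈ T, ∀ (M M' : Matrix (Fin m) (Fin m) ℂ) (μ : Fin m → ℝ), M * M' = 1 →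
      M' * M = 1 → A x = M * Matrix.diagonal (fun i => (μ i : ℂ)) * M' →
      P x = M * Matrix.diagonal (fun i => ((ev (μ i) : ℝ) : ℂ)) * M' := by
    intro x hx M M' μ b1 b2 b4
    show Polynomial.aeval (A x) p = _
    rw [b4, aeval_conj' b1 b2, aeval_diag]
    congr 3
    funext i
    have hmem : μ i ∈ s := by
      rcases hspec x hx M M' μ b1 b4 i with h0 | ⟨k, hk⟩
      · rw [h0]
        exact Finset.mem_insert_self _ _
      · rw [hk]
        exact Finset.mem_insert_of_mem (Finset.mem_image_of_mem _ (Finset.mem_univ k))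
    rw [hp (μ i) hmem]
  have hev : ∀ x ∈ T, ∀ (M M' : Matrix (Fin m) (Fin m) ℂ) (μ : Fin m → ℝ), M * M' = 1 →
      A x = M * Matrix.diagonal (fun i => (μ i : ℂ)) * M' → ∀ i, μ i ≠ 0 → c ≤ μ i := by
    intro x hx M M' μ b1 b4 i hi
    rcases hspec x hx M M' μ b1 b4 i with h0 | ⟨k, hk⟩
    · exact absurd h0 hi
    rw [hk]
    exact hcb k (by rw [← hk]; exact hi)
  have hPd : ∀ i j, DifferentiableOn ℂ (fun x => P x i j) T := diff_aevalE hA p
  refine ⟨(Finset.univ.filter fun i => μ₀ i ≠ 0).card, P, p, ?_, hp0, fun x => rfl, hPd, ?_, ?_,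
    ?_, ?_, ?_, ?_⟩
  · exact (Finset.card_le_univ _).trans (by simp)
  · intro x hx
    obtain ⟨M, M', μ, b1, b2, b3, b4, b5⟩ := diag_A (hh x hx) (hpsd x hx)
    rw [hPdiag x hx M M' μ b1 b2 b4]
    calc M * Matrix.diagonal (fun i => ((ev (μ i) : ℝ) : ℂ)) * M' *
        (M * Matrix.diagonal (fun i => ((ev (μ i) : ℝ) : ℂ)) * M') =
        M * (Matrix.diagonal (fun i => ((ev (μ i) : ℝ) : ℂ)) * (M' * M) *
          Matrix.diagonal (fun i => ((ev (μ i) : ℝ) : ℂ))) * M' := by
          simp only [Matrix.mul_assoc]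
      _ = _ := by
          rw [b2, Matrix.mul_one, Matrix.diagonal_mul_diagonal]
          congr 3
          funext i
          rw [← Complex.ofReal_mul, ev_sq]
  · intro x hx
    obtain ⟨M, M', μ, b1, b2, b3, b4, b5⟩ := diag_A (hh x hx) (hpsd x hx)
    rw [hPdiag x hx M M' μ b1 b2 b4, b3]
    have hD : (Matrix.diagonal fun i => ((ev (μ i) : ℝ) : ℂ))ᴴ =
        Matrix.diagonal fun i => ((ev (μ i) : ℝ) : ℂ) := by
      rw [Matrix.diagonal_conjTranspose]
      congr 1
      funext i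
      exact Complex.conj_ofReal _
    have hM : Mᴴ * M'ᴴ = 1 := by rw [← Matrix.conjTranspose_mul, b2, Matrix.conjTranspose_one]
    calc M * Matrix.diagonal (fun i => ((ev (μ i) : ℝ) : ℂ)) * M' * (M * Mᴴ) =
        M * Matrix.diagonal (fun i => ((ev (μ i) : ℝ) : ℂ)) * (M' * M) * Mᴴ := by
          simp only [Matrix.mul_assoc]
      _ = M * (Mᴴ * M'ᴴ) * Matrix.diagonal (fun i => ((ev (μ i) : ℝ) : ℂ)) * Mᴴ := by
          rw [b2, hM, Matrix.mul_one, Matrix.mul_one]
      _ = _ := by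
          rw [Matrix.conjTranspose_mul, Matrix.conjTranspose_mul, hD]
          simp only [Matrix.mul_assoc]
  · intro x hx
    obtain ⟨M, M', μ, b1, b2, b3, b4, b5⟩ := diag_A (hh x hx) (hpsd x hx)
    have h1 := card_of_prod (hprod x hx M M' μ b1 b4)
    rw [hPdiag x hx M M' μ b1 b2 b4, trace_conj_diag b2, ← Complex.ofReal_sum, h1,
      Finset.card_filter]
    push_cast
    refine Finset.sum_congr rfl fun i _ => ?_
    unfold ev
    by_cases h0 : μ₀ i = 0
    · simp [h0]
    · simp [h0]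
  · intro x hx
    obtain ⟨M, M', μ, b1, b2, b3, b4, b5⟩ := diag_A (hh x hx) (hpsd x hx)
    rw [hPdiag x hx M M' μ b1 b2 b4, b4]
    have hmm : ∀ d e : Fin m → ℂ, M * Matrix.diagonal d * M' * (M * Matrix.diagonal e * M') =
        M * Matrix.diagonal (fun i => d i * e i) * M' := by
      intro d e
      calc M * Matrix.diagonal d * M' * (M * Matrix.diagonal e * M') =
          M * (Matrix.diagonal d * (M' * M) * Matrix.diagonal e) * M' := by
            simp only [Matrix.mul_assoc]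
        _ = _ := by rw [b2, Matrix.mul_one, Matrix.diagonal_mul_diagonal]
    rw [hmm, hmm]
    constructor
    · congr 3
      funext i
      rw [← Complex.ofReal_mul, ev_mul]
    · congr 3
      funext i
      rw [← Complex.ofReal_mul, mul_comm, ev_mul]
  · refine ⟨c ^ m, pow_pos hc m, fun x hx => ?_⟩
    obtain ⟨M, M', μ, b1, b2, b3, b4, b5⟩ := diag_A (hh x hx) (hpsd x hx)
    have h1 : A x + (1 - P x) =
        M * Matrix.diagonal (fun i => ((μ i + (1 - ev (μ i)) : ℝ) : ℂ)) * M' := by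
      have h2 : (Matrix.diagonal fun i => ((μ i + (1 - ev (μ i)) : ℝ) : ℂ)) =
          (Matrix.diagonal fun i => (μ i : ℂ)) + (1 - Matrix.diagonal fun i =>
            ((ev (μ i) : ℝ) : ℂ)) := by
        ext i j
        by_cases hij : i = j
        · subst hij; simp
        · simp [Matrix.diagonal_apply_ne _ hij, Matrix.one_apply_ne hij]
      rw [hPdiag x hx M M' μ b1 b2 b4, h2, Matrix.mul_add, Matrix.add_mul, Matrix.mul_sub,
        Matrix.sub_mul, Matrix.mul_one, b1, ← b4]
    rw [h1, det_conj_diag b1, ← Complex.ofReal_prod, Complex.ofReal_re]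
    calc c ^ m = ∏ _i : Fin m, c := by simp
      _ ≤ ∏ i, (μ i + (1 - ev (μ i))) := by
          refine Finset.prod_le_prod (fun _ _ => hc.le) fun i _ => ?_
          by_cases h0 : μ i = 0
          · simp [ev, h0, hc1]
          · have := hev x hx M M' μ b1 b4 i h0
            simp [ev, h0, this]
  · refine ⟨c, hc, fun x hx => ?_⟩
    obtain ⟨M, M', μ, b1, b2, b3, b4, b5⟩ := diag_A (hh x hx) (hpsd x hx)
    have h1 : ∀ d : Fin m → ℂ, M * Matrix.diagonal d * M' * h x = M * Matrix.diagonal d * Mᴴ := by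
      intro d
      rw [b3]
      calc M * Matrix.diagonal d * M' * (M * Mᴴ) = M * Matrix.diagonal d * (M' * M) * Mᴴ := by
            simp only [Matrix.mul_assoc]
        _ = _ := by rw [b2, Matrix.mul_one]
    have h2 : A x * h x - (c : ℂ) • (P x * h x) =
        M * Matrix.diagonal (fun i => ((μ i - c * ev (μ i) : ℝ) : ℂ)) * Mᴴ := by
      rw [hPdiag x hx M M' μ b1 b2 b4]
      conv_lhs => rw [b4]
      rw [h1, h1, ← Matrix.smul_mul, ← Matrix.mul_smul, ← Matrix.sub_mul, ← Matrix.mul_sub]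
      congr 2
      ext i j
      by_cases hij : i = j
      · subst hij; simp
      · simp [Matrix.diagonal_apply_ne _ hij]
    rw [h2]
    refine Matrix.PosSemidef.mul_mul_conjTranspose_same (Matrix.PosSemidef.diagonal ?_) M
    intro i
    have h3 : (0 : ℝ) ≤ μ i - c * ev (μ i) := by
      by_cases h0 : μ i = 0
      · simp [ev, h0]
      · have := hev x hx M M' μ b1 b4 i h0
        simp [ev, h0, this]
    show (0 : ℂ) ≤ ((μ i - c * ev (μ i) : ℝ) : ℂ)
    exact_mod_cast h3

end Pool.Agent.Helper29.HL
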