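import Pool.Agent.Helper29.HL.HSP
import Pool.Agent.Helper29.HL.HCH
import Pool.Agent.Helper15.HB.HFL
import Pool.Agent.Helper15.HB.HCLO

/-!
# The interface `S_HLIM`
-/

open Complex Metric Set Filter Topology MeasureTheory
open scoped ContDiff ComplexConjugate ComplexOrder Manifold Matrix

namespace Pool.Agent.Helper29.HL

open Pool.Agent.Helper95.Lin Pool.Agent.Helper16.Abund Pool.Agent.Helper92.Orb
  Pool.Agent.Helper10.SP Pool.Agent.Helper95.RK Pool.Agent.Helper57.HS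
  Pool.Agent.Helper15.HS Pool.Agent.Helper15.GS Pool.Agent.Helper57.RBC Pool.Agent.Helper82.HB
open Pool.Agent.Helper57.HX (LimE S_SDB S_SDK S_HLC)
open Pool.Agent.Helper15.HB (S_HFL S_HCLO)

universe u v

variable {n m : ℕ}

theorem hermi_sumL {ι : Type*} (s : Finset ι) (M : ι → Matrix (Fin n) (Fin n) ℂ) (u v : Cn n) :
    hermi (∑ i ∈ s, M i) u v = ∑ i ∈ s, hermi (M i) u v := by
  unfold hermi
  simp only [Matrix.sum_apply, Finset.sum_mul]
  rw [Finset.sum_comm]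
  calc _ = ∑ i, ∑ k ∈ s, ∑ j, M k i j * u i * conj (v j) := by
        rw [Finset.sum_comm]
        refine Finset.sum_congr rfl fun i _ => ?_
        rw [Finset.sum_comm]
    _ = _ := Finset.sum_comm

theorem hermi_smulL (c : ℂ) (M : Matrix (Fin n) (Fin n) ℂ) (u v : Cn n) :
    hermi (c • M) u v = c * hermi M u v := by
  unfold hermi
  simp only [Matrix.smul_apply, smul_eq_mul, Finset.mul_sum, mul_assoc]

/-- `S_HLIM`. -/
theorem hlim (hARRB : S_ARRB.{u}) (hSDB : S_SDB.{u}) (hSDK : S_SDK.{u}) (hSCL : S_SCL.{u})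
    (hHLC : S_HLC.{u}) (hHFL : S_HFL) (hHCLO : S_HCLO.{u}) : S_HLIM.{u} := by
  intro n m hn T G _ R H σ h ψ D κ hκ
  have hT := D.ket.et.isOpen
  obtain ⟨s, S, N, φ, H', ε, Q, X, hL⟩ := hHLC hn T R H σ h ψ D κ hκ
  obtain ⟨h1, h2, h3, h4, h5⟩ := hsp hARRB hSDB hSDK hSCL D hL
  obtain ⟨r, P, p, hr, hp0, hPp, hPd, hPP, hPh, hPt, hPX, ⟨α, hα, hαd⟩, ⟨c, hc, hcp⟩⟩ :=
    hch D.ket.et D.sd.posDef hL.holo (fun x hx => (h1 x hx).2.1) h2
  have hflat : ∀ x ∈ T, ∀ k l, P x * RE h k l x = 0 := by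
    intro x hx
    refine hHFL T hT h P D.sd.posDef D.sd.smooth hPd hPP hPh x hx (X x) c (hPX x hx).1
      (hPX x hx).2 hc (hcp x hx) (h4 x hx) fun u e => ?_
    have h6 := h5 p hp0 x hx u (star e)
    rw [← hPp x] at h6
    refine h6.trans (le_of_eq ?_)
    congr 1
    have h7 : star e ⬝ᵥ ((P x * (∑ k, ∑ l, (u k * conj (u l)) • (RE h k l x * h x)) *
        (P x)ᴴ) *ᵥ e) = hermi (P x * (∑ k, ∑ l, (u k * conj (u l)) •
          (RE h k l x * h x)) * (P x)ᴴ) (star e) (star e) := by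
      rw [hermi_dot, star_star]
    rw [h7, Matrix.mul_sum, Matrix.sum_mul, hermi_sumL]
    refine Finset.sum_congr rfl fun k _ => ?_
    rw [Matrix.mul_sum, Matrix.sum_mul, hermi_sumL]
    refine Finset.sum_congr rfl fun l _ => ?_
    rw [Matrix.mul_smul, Matrix.smul_mul, hermi_smulL]
  have hgS : ∀ x ∈ T, gS (fun y => σ y * P y) h x =
      ∑ i ∈ Finset.range (p.natDegree + 1), ((p.coeff i : ℝ) : ℂ) •
        (σ x * (X x ^ i * h x) * (σ x)ᴴ) := by
    intro x hx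
    have e1 : gS (fun y => σ y * P y) h x = σ x * (P x * h x) * (σ x)ᴴ := by
      unfold gS
      rw [Matrix.conjTranspose_mul]
      calc σ x * P x * h x * ((P x)ᴴ * (σ x)ᴴ) = σ x * (P x * (h x * (P x)ᴴ)) * (σ x)ᴴ := by
            simp only [Matrix.mul_assoc]
        _ = σ x * (P x * P x * h x) * (σ x)ᴴ := by rw [← hPh x hx, ← Matrix.mul_assoc (P x)]
        _ = _ := by rw [hPP x hx]
    rw [e1, hPp x, Polynomial.aeval_eq_sum_range, Matrix.sum_mul, Matrix.mul_sum, Matrix.sum_mul]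
    refine Finset.sum_congr rfl fun i _ => ?_
    rw [← Complex.coe_smul, Matrix.smul_mul, Matrix.mul_smul, Matrix.smul_mul]
  have hinv : InvH R (gS (fun x => σ x * P x) h) := by
    intro U τ hArr x hx u v
    obtain ⟨γ, hγ⟩ := hArr.2.2
    obtain ⟨hxT, hyT⟩ := D.ket.et.mem γ x (τ x) (hγ x hx)
    rw [hgS x hxT, hgS (τ x) hyT, hermi_sumL, hermi_sumL]
    refine Finset.sum_congr rfl fun i _ => ?_
    rw [hermi_smulL, hermi_smulL]
    congr 1
    exact h3 i U τ hArr x hx u v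
  have hchf := hHCLO T R H D.ket σ h D.sd P hPd hPh hinv hflat
  exact ⟨r, X, P, s, S, N, φ, H', ε, Q, hr, hL.seq, ⟨hPd, hPP, hPt, hPh, hflat, hinv, hchf⟩,
    fun a b => (hL.holo a b).continuousOn, fun x hx => ⟨(hPX x hx).2, (hPX x hx).1⟩,
    fun x hx => (h1 x hx).2.1, fun x hx => (h1 x hx).2.2, ⟨α, hα, hαd⟩, hL.wl.Zb, hL.wl.conv⟩

end Pool.Agent.Helper29.HL
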