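import Pool.Agent.Helper19.HS.LPR
import Pool.Agent.Helper82.HB.Defs

/-!
# Invariance of `det (1 + t X)` and of the forms `σ (X^p h) σᴴ` for `X = ε h σᴴ Q⁻¹ σ`
-/

open Complex Metric Set Filter Topology MeasureTheory
open scoped ContDiff ComplexConjugate ComplexOrder Manifold Matrix

namespace Pool.Agent.Helper29.HL

open Pool.Agent.Helper95.Lin Pool.Agent.Helper16.Abund Pool.Agent.Helper92.Orb
  Pool.Agent.Helper10.SP Pool.Agent.Helper95.RK Pool.Agent.Helper57.HS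
  Pool.Agent.Helper15.HS Pool.Agent.Helper82.HB
open Pool.Agent.Helper19.HS (hermi_J hermi_ext JM)

universe u v

variable {n m : ℕ}

theorem sig_XS (ε : ℝ) (σ : Cn n → Matrix (Fin n) (Fin m) ℂ)
    (h : Cn n → Matrix (Fin m) (Fin m) ℂ) (Q : Cn n → Matrix (Fin n) (Fin n) ℂ) (x : Cn n) :
    σ x * XS ε σ h Q x = ((ε : ℂ) • (gS σ h x * (Q x)⁻¹)) * σ x := by
  unfold XS gS
  rw [Matrix.mul_smul, Matrix.smul_mul]
  simp only [Matrix.mul_assoc]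

theorem sig_XS_pow (ε : ℝ) (σ : Cn n → Matrix (Fin n) (Fin m) ℂ)
    (h : Cn n → Matrix (Fin m) (Fin m) ℂ) (Q : Cn n → Matrix (Fin n) (Fin n) ℂ) (x : Cn n)
    (p : ℕ) : σ x * XS ε σ h Q x ^ p = ((ε : ℂ) • (gS σ h x * (Q x)⁻¹)) ^ p * σ x := by
  induction p with
  | zero => rw [pow_zero, pow_zero, Matrix.mul_one, Matrix.one_mul]
  | succ p ih =>
    rw [pow_succ, ← Matrix.mul_assoc, ih, Matrix.mul_assoc, sig_XS, pow_succ, Matrix.mul_assoc]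

theorem det_XS (t ε : ℝ) (σ : Cn n → Matrix (Fin n) (Fin m) ℂ)
    (h : Cn n → Matrix (Fin m) (Fin m) ℂ) (Q : Cn n → Matrix (Fin n) (Fin n) ℂ) (x : Cn n) :
    (1 + (t : ℂ) • XS ε σ h Q x).det =
      (1 + (t : ℂ) • ((ε : ℂ) • (gS σ h x * (Q x)⁻¹))).det := by
  have h1 : (t : ℂ) • XS ε σ h Q x = ((t : ℂ) • ((ε : ℂ) • (h x * (σ x)ᴴ * (Q x)⁻¹))) * σ x := by
    unfold XS
    rw [Matrix.smul_mul, Matrix.smul_mul]
  have h2 : (t : ℂ) • ((ε : ℂ) • (gS σ h x * (Q x)⁻¹)) =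
      σ x * ((t : ℂ) • ((ε : ℂ) • (h x * (σ x)ᴴ * (Q x)⁻¹))) := by
    unfold gS
    rw [Matrix.mul_smul, Matrix.mul_smul]
    simp only [Matrix.mul_assoc]
  rw [h1, h2, Matrix.det_one_add_mul_comm]

theorem conj_powM {k : ℕ} {J J' B : Matrix (Fin k) (Fin k) ℂ} (h1 : J * J' = 1)
    (h2 : J' * J = 1) (p : ℕ) : (J * B * J') ^ p = J * B ^ p * J' := by
  induction p with
  | zero => rw [pow_zero, pow_zero, Matrix.mul_one, h1]
  | succ p ih =>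
    rw [pow_succ, ih, pow_succ]
    calc J * B ^ p * J' * (J * B * J') = J * B ^ p * (J' * J) * B * J' := by
          simp only [Matrix.mul_assoc]
      _ = _ := by rw [h2, Matrix.mul_one]; simp only [Matrix.mul_assoc]

/-- `g Q⁻¹` is conjugated by the Jacobian matrix. -/
theorem gK_conj {T : Set (Cn n)} {G : Type u} [Group G] {R : G → Cn n → Cn n → Prop}
    {Q g : Cn n → Matrix (Fin n) (Fin n) ℂ} (hQ : KEt T R Q) (hg : InvH R g)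
    {U : Set (Cn n)} {τ : Cn n → Cn n} (hArr : Arr R U τ) {x : Cn n} (hx : x ∈ U) :
    ∃ J J' : Matrix (Fin n) (Fin n) ℂ, J = JM (fderiv ℂ τ x) ∧ J * J' = 1 ∧ J' * J = 1 ∧
      g x = J * g (τ x) * Jᴴ ∧ g x * (Q x)⁻¹ = J * (g (τ x) * (Q (τ x))⁻¹) * J' := by
  obtain ⟨γ, hγ⟩ := hArr.2.2
  have hxT := (hQ.et.mem γ x (τ x) (hγ x hx)).1
  have e1 : g x = JM (fderiv ℂ τ x) * g (τ x) * (JM (fderiv ℂ τ x))ᴴ := by
    refine hermi_ext fun a b => ?_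
    rw [← hermi_J]
    exact (hg U τ hArr x hx a b).symm
  have e2 : Q x = JM (fderiv ℂ τ x) * Q (τ x) * (JM (fderiv ℂ τ x))ᴴ := by
    refine hermi_ext fun a b => ?_
    rw [← hermi_J]
    exact (hQ.inv U τ hArr x hx a b).symm
  set J := JM (fderiv ℂ τ x) with hJ
  have hd : (Q x).det ≠ 0 := (hQ.posDef x hxT).det_pos.ne'
  have hd' : J.det ≠ 0 ∧ (Jᴴ).det ≠ 0 := by
    rw [e2, Matrix.det_mul, Matrix.det_mul] at hd
    exact ⟨left_ne_zero_of_mul (left_ne_zero_of_mul hd), right_ne_zero_of_mul hd⟩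
  have h1 : J⁻¹ * J = 1 := Matrix.nonsing_inv_mul _ hd'.1.isUnit
  have h1' : J * J⁻¹ = 1 := Matrix.mul_nonsing_inv _ hd'.1.isUnit
  have h2 : Jᴴ * (Jᴴ)⁻¹ = 1 := Matrix.mul_nonsing_inv _ hd'.2.isUnit
  refine ⟨J, J⁻¹, rfl, h1', h1, e1, ?_⟩
  rw [e1, e2, Matrix.mul_inv_rev, Matrix.mul_inv_rev]
  calc J * g (τ x) * Jᴴ * ((Jᴴ)⁻¹ * ((Q (τ x))⁻¹ * J⁻¹)) =
      J * g (τ x) * (Jᴴ * (Jᴴ)⁻¹) * (Q (τ x))⁻¹ * J⁻¹ := by simp only [Matrix.mul_assoc]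
    _ = _ := by rw [h2, Matrix.mul_one]; simp only [Matrix.mul_assoc]

/-- The forms `σ (X^p h) σᴴ` are invariant. -/
theorem inv_form_pow {T : Set (Cn n)} {G : Type u} [Group G] {R : G → Cn n → Cn n → Prop}
    {σ : Cn n → Matrix (Fin n) (Fin m) ℂ} {h : Cn n → Matrix (Fin m) (Fin m) ℂ}
    {Q : Cn n → Matrix (Fin n) (Fin n) ℂ} (hQ : KEt T R Q) (hg : InvH R (gS σ h)) (ε : ℝ)
    (p : ℕ) : InvH R fun x => σ x * (XS ε σ h Q x ^ p * h x) * (σ x)ᴴ := by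
  intro U τ hArr x hx u v
  obtain ⟨J, J', hJ, h1, h2, h3, h4⟩ := gK_conj hQ hg hArr hx
  have hf : ∀ y, σ y * (XS ε σ h Q y ^ p * h y) * (σ y)ᴴ =
      ((ε : ℂ) • (gS σ h y * (Q y)⁻¹)) ^ p * gS σ h y := by
    intro y
    rw [← Matrix.mul_assoc, sig_XS_pow]
    unfold gS
    simp only [Matrix.mul_assoc]
  simp only [hf]
  rw [hermi_J, ← hJ]
  congr 1
  have h5 : (ε : ℂ) • (gS σ h x * (Q x)⁻¹) =
      J * ((ε : ℂ) • (gS σ h (τ x) * (Q (τ x))⁻¹)) * J' := by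
    rw [h4, Matrix.mul_smul, Matrix.smul_mul]
  rw [h5, conj_powM h1 h2, h3]
  set B := ((ε : ℂ) • (gS σ h (τ x) * (Q (τ x))⁻¹)) ^ p
  calc J * (B * gS σ h (τ x)) * Jᴴ = J * B * (1 * gS σ h (τ x)) * Jᴴ := by
        rw [Matrix.one_mul]; simp only [Matrix.mul_assoc]
    _ = _ := by rw [← h2]; simp only [Matrix.mul_assoc]

/-- `det (1 + t X)` is invariant. -/
theorem inv_det {T : Set (Cn n)} {G : Type u} [Group G] {R : G → Cn n → Cn n → Prop}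
    {σ : Cn n → Matrix (Fin n) (Fin m) ℂ} {h : Cn n → Matrix (Fin m) (Fin m) ℂ}
    {Q : Cn n → Matrix (Fin n) (Fin n) ℂ} (hARRB : S_ARRB.{u}) (hQ : KEt T R Q)
    (hg : InvH R (gS σ h)) (t ε : ℝ) (γ : G) (x y : Cn n) (hxy : R γ x y) :
    (1 + (t : ℂ) • XS ε σ h Q y).det = (1 + (t : ℂ) • XS ε σ h Q x).det := by
  obtain ⟨U, τ, -, hx₀, -, harr, hτx, -⟩ := (hARRB T R hQ.et).1 γ x y hxy
  obtain ⟨J, J', hJ, h1, h2, h3, h4⟩ := gK_conj hQ hg ⟨harr.1, harr.2.1, γ, harr.2.2⟩ hx₀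
  rw [det_XS, det_XS, h4, hτx]
  have h5 : 1 + (t : ℂ) • ((ε : ℂ) • (J * (gS σ h y * (Q y)⁻¹) * J')) =
      J * (1 + (t : ℂ) • ((ε : ℂ) • (gS σ h y * (Q y)⁻¹))) * J' := by
    rw [Matrix.mul_add, Matrix.add_mul, Matrix.mul_one, h1, Matrix.mul_smul, Matrix.mul_smul,
      Matrix.smul_mul, Matrix.smul_mul]
  have h6 : J.det * J'.det = 1 := by rw [← Matrix.det_mul, h1, Matrix.det_one]
  rw [h5, Matrix.det_mul, Matrix.det_mul]
  calc (1 + (t : ℂ) • ((ε : ℂ) • (gS σ h y * (Q y)⁻¹))).det =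
      1 * (1 + (t : ℂ) • ((ε : ℂ) • (gS σ h y * (Q y)⁻¹))).det := (one_mul _).symm
    _ = _ := by rw [← h6]; ring

end Pool.Agent.Helper29.HL
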