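import Pool.Agent.Helper29.HL.WL
import Pool.Agent.Helper29.HL.XIN
import Pool.Agent.Helper57.HX.GoalsL
import Pool.Agent.Helper82.HB.Cal
import Pool.Agent.Helper94.GS.GDZ

/-!
# HSP: properties of the limit `X`
-/

open Complex Metric Set Filter Topology MeasureTheory
open scoped ContDiff ComplexConjugate ComplexOrder Manifold Matrix

namespace Pool.Agent.Helper29.HL

open Pool.Agent.Helper95.Lin Pool.Agent.Helper16.Abund Pool.Agent.Helper92.Orb
  Pool.Agent.Helper10.SP Pool.Agent.Helper95.RK Pool.Agent.Helper57.HS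
  Pool.Agent.Helper15.HS Pool.Agent.Helper15.GS Pool.Agent.Helper57.RBC Pool.Agent.Helper82.HB
open Pool.Agent.Helper10.RBC (dn)
open Pool.Agent.Helper29.HB (WL)
open Pool.Agent.Helper57.HX (LimE S_SDB S_SDK)

universe u v

variable {n m : ℕ}

/-! ## Continuity of matrix expressions -/

theorem cmul {α : Type*} [TopologicalSpace α] {S : Set α} {a b c : ℕ}
    {A : α → Matrix (Fin a) (Fin b) ℂ} {B : α → Matrix (Fin b) (Fin c) ℂ}
    (hA : ContinuousOn A S) (hB : ContinuousOn B S) : ContinuousOn (fun x => A x * B x) S :=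
  (Continuous.matrix_mul continuous_fst continuous_snd).comp_continuousOn (hA.prodMk hB)

theorem cstar {α : Type*} [TopologicalSpace α] {S : Set α} {a b : ℕ}
    {A : α → Matrix (Fin a) (Fin b) ℂ} (hA : ContinuousOn A S) :
    ContinuousOn (fun x => (A x)ᴴ) S :=
  (Continuous.matrix_conjTranspose continuous_id).comp_continuousOn hA

theorem cent {α : Type*} [TopologicalSpace α] {S : Set α} {a b : ℕ}
    {A : α → Matrix (Fin a) (Fin b) ℂ} (hA : ContinuousOn A S) (i : Fin a) (j : Fin b) :
    ContinuousOn (fun x => A x i j) S :=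
  (continuous_apply j).comp_continuousOn ((continuous_apply i).comp_continuousOn hA)

theorem ctrace {α : Type*} [TopologicalSpace α] {S : Set α} {a : ℕ}
    {A : α → Matrix (Fin a) (Fin a) ℂ} (hA : ContinuousOn A S) :
    ContinuousOn (fun x => Matrix.trace (A x)) S :=
  (Continuous.matrix_trace continuous_id).comp_continuousOn hA

theorem cdet {α : Type*} [TopologicalSpace α] {S : Set α} {a : ℕ}
    {A : α → Matrix (Fin a) (Fin a) ℂ} (hA : ContinuousOn A S) :
    ContinuousOn (fun x => (A x).det) S :=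
  (Continuous.matrix_det continuous_id).comp_continuousOn hA

theorem cofent {α : Type*} [TopologicalSpace α] {S : Set α} {a b : ℕ}
    {A : α → Matrix (Fin a) (Fin b) ℂ} (hA : ∀ i j, ContinuousOn (fun x => A x i j) S) :
    ContinuousOn A S := continuousOn_pi.2 fun i => continuousOn_pi.2 fun j => hA i j

theorem clift {E F : Type*} [TopologicalSpace E] [TopologicalSpace F] {T : Set (Cn n)}
    {f : Cn n → E} (hf : ContinuousOn f T) :
    ContinuousOn (fun q : Cn n × F => f q.1) (T ×ˢ univ) :=
  hf.comp continuousOn_fst fun _ hq => hq.1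

theorem caeval (p : Polynomial ℝ) :
    Continuous fun X : Matrix (Fin m) (Fin m) ℂ => Polynomial.aeval X p := by
  simp only [Polynomial.aeval_eq_sum_range]
  refine continuous_finsetSum _ fun k _ => ?_
  have h : Continuous fun X : Matrix (Fin m) (Fin m) ℂ => X ^ k := continuous_pow k
  exact h.const_smul (p.coeff k)

/-! ## `hermi` and row vectors -/

theorem hermi_dot {k : ℕ} (A : Matrix (Fin k) (Fin k) ℂ) (u v : Fin k → ℂ) :
    hermi A u v = u ⬝ᵥ (A *ᵥ star v) := by
  unfold hermi
  simp only [dotProduct, Matrix.mulVec, Pi.star_apply, Finset.mul_sum]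
  refine Finset.sum_congr rfl fun i _ => Finset.sum_congr rfl fun j _ => ?_
  rw [Complex.star_def]
  ring

theorem hermi_vecMul {a b : ℕ} (B : Matrix (Fin a) (Fin b) ℂ) (A : Matrix (Fin b) (Fin b) ℂ)
    (e f : Fin a → ℂ) : hermi (B * A * Bᴴ) e f = hermi A (e ᵥ* B) (f ᵥ* B) := by
  rw [hermi_dot, hermi_dot, Matrix.star_vecMul, ← Matrix.dotProduct_mulVec,
    Matrix.mulVec_mulVec, Matrix.mulVec_mulVec, Matrix.mul_assoc]

/-! ## The properties -/

/-- HSP. Properties of the limit. -/
theorem hsp (hARRB : S_ARRB.{u}) (hSDB : S_SDB.{u}) (hSDK : S_SDK.{u}) (hSCL : S_SCL.{u})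
    {T : Set (Cn n)} {G : Type u} [Group G] {R : G → Cn n → Cn n → Prop}
    {H : Cn n → Matrix (Fin n) (Fin n) ℂ} {σ : Cn n → Matrix (Fin n) (Fin m) ℂ}
    {h : Cn n → Matrix (Fin m) (Fin m) ℂ} {ψ : Cn n → ℝ} (D : HDat T R H σ h ψ) {κ : Cn n → ℝ}
    {X : Cn n → Matrix (Fin m) (Fin m) ℂ} {s : ℝ} {S N : ℕ → ℝ} {φ : ℕ → Cn n → ℝ}
    {H' : ℕ → Cn n → Matrix (Fin n) (Fin n) ℂ} {ε : ℕ → ℝ}
    {Q : ℕ → Cn n → Matrix (Fin n) (Fin n) ℂ} (hL : LimE T R κ H σ h X s S N φ H' ε Q) :
    (∀ x ∈ T, X x * h x = h x * (X x)ᴴ ∧ (X x * h x).PosSemidef ∧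
      Matrix.trace (X x) = (s : ℂ)) ∧
    (∀ t : ℝ, ∀ γ x y, R γ x y → (1 + (t : ℂ) • X y).det = (1 + (t : ℂ) • X x).det) ∧
    (∀ p : ℕ, InvH R fun x => σ x * (X x ^ p * h x) * (σ x)ᴴ) ∧
    (∀ x ∈ T, ∀ k l, Matrix.trace (RE h k l x * X x) = 0) ∧
    ∀ q : Polynomial ℝ, q.eval 0 = 0 → ∀ x ∈ T, ∀ (u : Cn n) (e : Fin m → ℂ),
      0 ≤ (∑ k, ∑ l, u k * conj (u l) * hermi (Polynomial.aeval (X x) q *
        (RE h k l x * h x) * (Polynomial.aeval (X x) q)ᴴ) e e).re := by
  have hT := D.ket.et.isOpen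
  have hQ : ∀ j, KEt T R (Q j) := fun j => (hL.seq.tke j).ket
  have hB := fun j => (hSDB T R H σ h D.ket D.sd).1 (ε j) (Q j) (hL.seq.eps j) (hQ j)
  have hhc : ContinuousOn h T := cofent fun i j => (D.sd.smooth i j).continuousOn
  have hσc : ContinuousOn σ T := cofent fun i j => (D.sd.holo i j).continuousOn
  have hREc : ∀ k l, ContinuousOn (RE h k l) T := fun k l => cofent fun i j =>
    (RE_smooth hT D.sd.smooth D.sd.posDef k l i j).continuousOn
  have hXc : ContinuousOn (fun q : Cn n × Matrix (Fin m) (Fin m) ℂ => q.2) (T ×ˢ univ) :=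
    continuousOn_snd
  have hh' : ContinuousOn (fun q : Cn n × Matrix (Fin m) (Fin m) ℂ => h q.1) (T ×ˢ univ) :=
    clift hhc
  have hzero : ∀ C ⊆ T, IsCompact C →
      Tendsto (fun j : ℕ => ∫ x in C, dn T κ H (Q j) x * (0 : ℝ)) atTop (𝓝 0) := by
    intro C _ _
    simp
  -- selfadjoint
  have hherm : ∀ x ∈ T, X x * h x = h x * (X x)ᴴ := by
    intro x hx
    ext a c
    have h1 := wcc T _ _ X hL.wl
      (fun x Y => ‖(Y * h x) a c - (h x * Yᴴ) a c‖)
      ((cent (cmul hXc hh') a c).sub (cent (cmul hh' (cstar hXc)) a c)).norm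
      (fun _ _ => 0) (fun j => continuousOn_const) (fun j y hy => ?_) hzero x hx
    · exact sub_eq_zero.1 (norm_le_zero_iff.1 h1)
    · have h2 := ((hB j).2 y hy).1
      show ‖(XS (ε j) σ h (Q j) y * h y) a c - (h y * (XS (ε j) σ h (Q j) y)ᴴ) a c‖ ≤ 0
      rw [h2, sub_self, norm_zero]
  -- positive semidefinite
  have hpsd : ∀ x ∈ T, (X x * h x).PosSemidef := by
    intro x hx
    have hH : (X x * h x).IsHermitian := by
      show (X x * h x)ᴴ = X x * h x
      rw [Matrix.conjTranspose_mul, (D.sd.posDef x hx).isHermitian.eq, hherm x hx]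
    refine Matrix.PosSemidef.of_dotProduct_mulVec_nonneg hH fun e => ?_
    have h1 := wcc T _ _ X hL.wl
      (fun x Y => -(hermi (Y * h x) (star e) (star e)).re) ?_
      (fun _ _ => 0) (fun j => continuousOn_const) (fun j y hy => ?_) hzero x hx
    · have h2 : hermi (X x * h x) (star e) (star e) = star e ⬝ᵥ ((X x * h x) *ᵥ e) := by
        rw [hermi_dot, star_star]
      have h3 := hH.im_star_dotProduct_mulVec_self e
      rw [h2] at h1
      rw [Complex.nonneg_iff]
      refine ⟨by linarith, ?_⟩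
      simpa using h3.symm
    · refine ContinuousOn.neg (Complex.continuous_re.comp_continuousOn ?_)
      unfold hermi
      refine continuousOn_finsetSum _ fun i _ => continuousOn_finsetSum _ fun j _ => ?_
      exact ((cent (cmul hXc hh') i j).mul continuousOn_const).mul continuousOn_const
    · have h2 := ((hB j).2 y hy).2.1.dotProduct_mulVec_nonneg e
      have h3 := (Complex.nonneg_iff.1 h2).1
      show -(hermi (XS (ε j) σ h (Q j) y * h y) (star e) (star e)).re ≤ 0
      rw [hermi_dot, star_star]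
      linarith
  -- trace
  have htr : ∀ x ∈ T, Matrix.trace (X x) = (s : ℂ) := by
    intro x hx
    have htSc : ∀ j, ContinuousOn (fun y => S j - ε j * tS σ h (Q j) y) T := by
      intro j
      have := (hSCL T R σ h D.sd (Q j) (fun x => (ε j : ℂ) • H' j x) (hQ j)
        (hL.seq.tke j).eq).2.1.1.continuousOn
      exact continuousOn_const.sub (continuousOn_const.mul this)
    have h1 := wcc T _ _ X hL.wl
      (fun x Y => ‖Matrix.trace Y - (s : ℂ)‖)
      ((ctrace hXc).sub continuousOn_const).norm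
      (fun j y => |S j - s| + (S j - ε j * tS σ h (Q j) y))
      (fun j => continuousOn_const.add (htSc j)) (fun j y hy => ?_) ?_ x hx
    · exact sub_eq_zero.1 (norm_le_zero_iff.1 h1)
    · have h2 := ((hB j).2 y hy).2.2
      show ‖Matrix.trace (XS (ε j) σ h (Q j) y) - (s : ℂ)‖ ≤ _
      rw [h2, ← Complex.ofReal_sub, Complex.norm_real, Real.norm_eq_abs]
      have h3 : ε j * tS σ h (Q j) y ≤ S j := hL.seq.m_le j y hy
      calc |ε j * tS σ h (Q j) y - s| = |(S j - s) + (-(S j - ε j * tS σ h (Q j) y))| := by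
            congr 1; ring
        _ ≤ |S j - s| + |-(S j - ε j * tS σ h (Q j) y)| := abs_add_le _ _
        _ = _ := by rw [abs_neg, abs_of_nonneg (sub_nonneg.2 h3)]
    · intro C hC hCc
      obtain ⟨K, hK, hdn⟩ := hL.wb
      have h2 := hL.v C hC hCc
      have hdc : ∀ j, ContinuousOn (dn T κ H (Q j)) C := fun j => (hL.wl.wc j).mono hC
      have h4 : Tendsto (fun j => |S j - s|) atTop (𝓝 0) := by
        refine squeeze_zero (fun j => abs_nonneg _) (fun j => ?_)
          (tendsto_one_div_add_atTop_nhds_zero_nat (𝕜 := ℝ))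
        rw [abs_of_nonneg (sub_nonneg.2 (hL.seq.S_ge j))]
        have := hL.seq.S_le j
        linarith
      have h3 : Tendsto (fun j => |S j - s| * ∫ x in C, dn T κ H (Q j) x) atTop (𝓝 0) := by
        have h5 : Tendsto (fun j => |S j - s| * (K * volume.real C)) atTop (𝓝 0) := by
          have := h4.mul_const (K * volume.real C)
          rwa [zero_mul] at this
        refine squeeze_zero (fun j => mul_nonneg (abs_nonneg _)
          (setIntegral_nonneg hCc.measurableSet fun x hx => (hdn j x (hC hx)).1.le))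
          (fun j => ?_) h5
        refine mul_le_mul_of_nonneg_left ?_ (abs_nonneg _)
        have h6 : ∫ x in C, dn T κ H (Q j) x ≤ ∫ _x in C, K :=
          setIntegral_mono_on ((hdc j).integrableOn_compact hCc)
            (integrableOn_const hCc.measure_lt_top.ne) hCc.measurableSet
            fun x hx => (hdn j x (hC hx)).2
        rw [setIntegral_const, smul_eq_mul] at h6
        linarith
      have h7 := h3.add h2
      rw [add_zero] at h7
      refine h7.congr fun j => ?_
      rw [← integral_const_mul, ← integral_add]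
      · refine integral_congr_ae (Filter.Eventually.of_forall fun x => ?_)
        simp only
        ring
      · exact ((hdc j).integrableOn_compact hCc).const_mul _
      · exact ((hdc j).mul ((htSc j).mono hC)).integrableOn_compact hCc
  refine ⟨fun x hx => ⟨hherm x hx, hpsd x hx, htr x hx⟩, ?_, ?_, ?_, ?_⟩
  · intro t
    refine (win hARRB T R D.ket.et _ _ X hL.wl hL.winv).1
      (fun _ Y => (1 + (t : ℂ) • Y).det) ?_ fun j γ x y hxy => ?_
    · exact cdet (continuousOn_const.add (hXc.const_smul (t : ℂ)))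
    · exact inv_det hARRB (hQ j) D.sd.inv t (ε j) γ x y hxy
  · intro p
    refine (win hARRB T R D.ket.et _ _ X hL.wl hL.winv).2
      (fun x Y => σ x * (Y ^ p * h x) * (σ x)ᴴ) (fun i l => ?_) fun j => ?_
    · exact cent (cmul (cmul (clift hσc) (cmul (hXc.pow p) hh')) (cstar (clift hσc))) i l
    · exact inv_form_pow (hQ j) D.sd.inv (ε j) p
  · intro x hx k l
    have hXSc : ∀ j, ContinuousOn (fun y => XS (ε j) σ h (Q j) y) T := fun j =>
      cofent fun a c => ((hB j).1 a c).continuousOn
    have hEc : ∀ j, ContinuousOn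
        (fun y => ‖Matrix.trace (RE h k l y * XS (ε j) σ h (Q j) y)‖) T := fun j =>
      (ctrace (cmul (hREc k l) (hXSc j))).norm
    have h1 := wcc T _ _ X hL.wl
      (fun x Y => ‖Matrix.trace (RE h k l x * Y)‖)
      (ctrace (cmul (clift (hREc k l)) hXc)).norm
      (fun j y => ‖Matrix.trace (RE h k l y * XS (ε j) σ h (Q j) y)‖)
      hEc (fun j y hy => le_rfl) ?_ x hx
    · exact norm_le_zero_iff.1 h1
    · intro C hC hCc
      obtain ⟨K, hK, hdn⟩ := hL.wb
      obtain ⟨K', hK', hbd⟩ := hSDK T R H σ h D.ket D.sd C hC hCc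
      obtain ⟨B, hBg⟩ := hL.gB C hC hCc
      -- a bound of the traces
      obtain ⟨K₁, hK₁⟩ := hL.wl.Zb C hC hCc
      obtain ⟨K₂, hK₂0, hK₂⟩ := Pool.Agent.Helper19.HS.bddM hCc (f := RE h k l)
        fun a c => (cent (hREc k l) a c).mono hC
      have hb : ∀ j, ∀ x ∈ C, ‖Matrix.trace (RE h k l x * XS (ε j) σ h (Q j) x)‖ ≤
          m * (m * (K₂ * |K₁|)) := by
        intro j x hx
        have hb1 : ∀ a c, ‖RE h k l x a c * XS (ε j) σ h (Q j) x c a‖ ≤ K₂ * |K₁| := by
          intro a c
          rw [norm_mul]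
          exact mul_le_mul (hK₂ x hx a c) ((hK₁ j x hx c a).trans (le_abs_self _))
            (norm_nonneg _) hK₂0
        have hb2 : ∀ a, ‖∑ c, RE h k l x a c * XS (ε j) σ h (Q j) x c a‖ ≤
            m * (K₂ * |K₁|) := by
          intro a
          refine (norm_sum_le_of_le _ fun c _ => hb1 a c).trans (le_of_eq ?_)
          simp
        simp only [Matrix.trace, Matrix.diag_apply, Matrix.mul_apply]
        refine (norm_sum_le_of_le _ fun a _ => hb2 a).trans (le_of_eq ?_)
        simp
      have hscl := fun j => hSCL T R σ h D.sd (Q j) (fun x => (ε j : ℂ) • H' j x) (hQ j)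
        (hL.seq.tke j).eq
      have hgt : ∀ j, ContinuousOn (fun x => (Matrix.trace (Q j x * (H x)⁻¹)).re) T := by
        intro j
        have h2 : ContinuousOn (fun x => (H x)⁻¹) T := by
          have hHc : ContinuousOn H T := cofent fun i l => (D.ket.smooth i l).continuousOn
          exact Pool.Agent.Helper56.HS.DBZ.cont_inv hHc fun x hx =>
            (D.ket.posDef x hx).det_pos.ne'
        exact Complex.continuous_re.comp_continuousOn (ctrace (cmul
          (cofent fun i l => ((hQ j).smooth i l).continuousOn) h2))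
      have hg0 : ∀ j, ∀ x ∈ T, 0 ≤ (Matrix.trace (Q j x * (H x)⁻¹)).re := fun j x hx =>
        Pool.Agent.Helper56.HS.DBZ.trace_nonneg ((hQ j).posDef x hx).posSemidef
          (D.ket.posDef x hx).inv.posSemidef
      refine Pool.Agent.Helper94.GS.tend (n := n) (C := C) hCc (D := fun j => dn T κ H (Q j))
        (f := fun j x => ‖Matrix.trace (RE h k l x * XS (ε j) σ h (Q j) x)‖)
        (g := fun j x => (Matrix.trace (Q j x * (H x)⁻¹)).re)
        (a := fun j x => ε j * (AAs σ h (Q j) x + NKs σ h (Q j) x)) (E := K)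
        (K := (m * (m * (K₂ * |K₁|))) * K') (B := B)
        (fun j => (hL.wl.wc j).mono hC) (fun j => (hgt j).mono hC)
        (fun j => ?_) (fun j x hx => (hdn j x (hC hx)).1.le)
        (fun j x hx => (hdn j x (hC hx)).2) (fun j x hx => norm_nonneg _)
        (fun j x hx => hg0 j x (hC hx)) (fun j x hx => ?_) hK.le (fun j x hx => ?_) hBg
        (hL.err C hC hCc)
      · exact (continuousOn_const.mul ((hscl j).2.2.1.add (hscl j).2.2.2.1)).mono hC
      · have h3 := ((hscl j).2.2.2.2.2 x (hC hx)).2.2.1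
        have h4 := ((hscl j).2.2.2.2.2 x (hC hx)).2.2.2.1
        exact mul_nonneg (hL.seq.eps j).le (add_nonneg h3 h4)
      · have h3 := ((hscl j).2.2.2.2.2 x (hC hx)).2.2.1
        have h5 := hbd (ε j) (Q j) (hL.seq.eps j) (hQ j) x hx k l
        have h6 := hb j x hx
        have h7 := norm_nonneg (Matrix.trace (RE h k l x * XS (ε j) σ h (Q j) x))
        have h8 := mul_le_mul h6 h5 h7 (by positivity)
        refine (le_of_eq (sq _)).trans (h8.trans ?_)
        have h9 : ε j * NKs σ h (Q j) x ≤ ε j * (AAs σ h (Q j) x + NKs σ h (Q j) x) :=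
          mul_le_mul_of_nonneg_left (by linarith) (hL.seq.eps j).le
        have h10 := mul_le_mul_of_nonneg_left h9
          (mul_nonneg (mul_nonneg (by positivity : 0 ≤ (m * (m * (K₂ * |K₁|)) : ℝ)) hK'.le)
            (hg0 j x (hC hx)))
        calc _ = (m * (m * (K₂ * |K₁|))) * K' * (Matrix.trace (Q j x * (H x)⁻¹)).re *
              (ε j * NKs σ h (Q j) x) := by ring
          _ ≤ _ := h10
  · intro q hq x hx u e
    have h1 := wcc T _ _ X hL.wl
      (fun x Y => -(∑ k, ∑ l, u k * conj (u l) * hermi (Polynomial.aeval Y q *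
        (RE h k l x * h x) * (Polynomial.aeval Y q)ᴴ) e e).re) ?_
      (fun _ _ => 0) (fun j => continuousOn_const) (fun j y hy => ?_) hzero x hx
    · linarith
    · refine ContinuousOn.neg (Complex.continuous_re.comp_continuousOn ?_)
      refine continuousOn_finsetSum _ fun k _ => continuousOn_finsetSum _ fun l _ =>
        continuousOn_const.mul ?_
      unfold hermi
      refine continuousOn_finsetSum _ fun i _ => continuousOn_finsetSum _ fun j _ => ?_
      have hq' : ContinuousOn (fun r : Cn n × Matrix (Fin m) (Fin m) ℂ =>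
          Polynomial.aeval r.2 q) (T ×ˢ univ) := (caeval q).comp_continuousOn hXc
      exact ((cent (cmul (cmul hq' (cmul (clift (hREc k l)) hh')) (cstar hq')) i j).mul
        continuousOn_const).mul continuousOn_const
    · obtain ⟨q₁, rfl⟩ := Polynomial.X_dvd_iff.2
        (show q.coeff 0 = 0 by rw [Polynomial.coeff_zero_eq_eval_zero, hq])
      set Y := XS (ε j) σ h (Q j) y with hY
      have h2 : Polynomial.aeval Y (Polynomial.X * q₁) =
          (Polynomial.aeval Y q₁ * ((ε j : ℂ) • (h y * (σ y)ᴴ * (Q j y)⁻¹))) * σ y := by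
        rw [mul_comm, map_mul, Polynomial.aeval_X, Matrix.mul_assoc]
        congr 1
        rw [Matrix.smul_mul, hY]
        rfl
      set B := Polynomial.aeval Y q₁ * ((ε j : ℂ) • (h y * (σ y)ᴴ * (Q j y)⁻¹)) with hB'
      have h3 : ∀ k l, hermi (Polynomial.aeval Y (Polynomial.X * q₁) *
          (RE h k l y * h y) * (Polynomial.aeval Y (Polynomial.X * q₁))ᴴ) e e =
          hermi (σ y * (RE h k l y * h y) * (σ y)ᴴ) (e ᵥ* B) (e ᵥ* B) := by
        intro k l
        rw [← hermi_vecMul, h2, Matrix.conjTranspose_mul]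
        simp only [Matrix.mul_assoc]
      simp only [h3]
      have h4 := D.sd.neg y hy u (e ᵥ* B)
      linarith

end Pool.Agent.Helper29.HL
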