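import Pool.Agent.Helper19.HS.LPR
import Pool.Agent.Helper35.SP.L2C

/-!
# Weighted limits of vector valued functions: closed conditions and invariance pass to the limit
-/

open Complex Metric Set Filter Topology MeasureTheory
open scoped ContDiff ComplexConjugate ComplexOrder Manifold Matrix

namespace Pool.Agent.Helper29.HL

open Pool.Agent.Helper95.Lin Pool.Agent.Helper16.Abund Pool.Agent.Helper92.Orb
  Pool.Agent.Helper10.SP Pool.Agent.Helper95.RK Pool.Agent.Helper57.HS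
  Pool.Agent.Helper15.HS
open Pool.Agent.Helper19.HS (keyZ)

universe u v

variable {n : ℕ} {E : Type v} [NormedAddCommGroup E]

/-- Weighted convergence of functions with values in `E`. -/
structure WG (T : Set (Cn n)) (w : ℕ → Cn n → ℝ) (Z : ℕ → Cn n → E) (P : Cn n → E) : Prop where
  op : IsOpen T
  wc : ∀ j, ContinuousOn (w j) T
  w0 : ∀ j, ∀ x ∈ T, 0 ≤ w j x
  Zc : ∀ j, ContinuousOn (Z j) T
  Pc : ContinuousOn P T
  bd : ∀ C ⊆ T, IsCompact C → ∃ B : ℝ, ∀ j, ∀ x ∈ C, ‖Z j x‖ ≤ B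
  conv : ∀ C ⊆ T, IsCompact C → Tendsto (fun j => ∫ x in C, w j x * ‖Z j x - P x‖) atTop (𝓝 0)
  low : ∀ C ⊆ T, IsCompact C → 0 < volume C → ∃ c > 0, ∀ j, c ≤ ∫ x in C, w j x

/-- A continuous function is almost Lipschitz on compact sets. -/
theorem unif_lip [ProperSpace E] {T C : Set (Cn n)} (hCT : C ⊆ T) (hC : IsCompact C)
    {Φ : Cn n → E → ℝ} (hΦ : ContinuousOn (fun q : Cn n × E => Φ q.1 q.2) (T ×ˢ univ))
    (K : ℝ) {η : ℝ} (hη : 0 < η) : ∃ M : ℝ, 0 ≤ M ∧ ∀ x ∈ C,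
    ∀ X Y : E, ‖X‖ ≤ K → ‖Y‖ ≤ K → Φ x Y ≤ Φ x X + (η + M * ‖X - Y‖) := by
  set Ψ : Cn n × E → ℝ := fun q => Φ q.1 q.2 with hΨ
  set B : Set E := closedBall 0 K
  have hBc : IsCompact B := isCompact_closedBall _ _
  have hCB : IsCompact (C ×ˢ B) := hC.prod hBc
  have hsub : C ×ˢ B ⊆ T ×ˢ univ := fun q hq => ⟨hCT hq.1, mem_univ _⟩
  have hcc := hΦ.mono hsub
  obtain ⟨M0, hM0⟩ := hCB.exists_bound_of_continuousOn hcc
  have hu := hCB.uniformContinuousOn_of_continuous hcc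
  obtain ⟨δ, hδ, hδu⟩ := Metric.uniformContinuousOn_iff.1 hu η hη
  refine ⟨2 * |M0| / δ, by positivity, fun x hx X Y hX hY => ?_⟩
  have mX : ((x, X) : Cn n × E) ∈ C ×ˢ B := ⟨hx, mem_closedBall_zero_iff.2 hX⟩
  have mY : ((x, Y) : Cn n × E) ∈ C ×ˢ B := ⟨hx, mem_closedBall_zero_iff.2 hY⟩
  rcases lt_or_ge ‖X - Y‖ δ with h | h
  · have h1 : dist ((x, X) : Cn n × E) ((x, Y) : Cn n × E) < δ := by
      rw [Prod.dist_eq, dist_self]
      refine max_lt hδ ?_
      rw [dist_eq_norm]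
      exact h
    have h2 := hδu _ mX _ mY h1
    rw [Real.dist_eq] at h2
    have h3 := (abs_lt.1 h2).1
    have h4 : 0 ≤ 2 * |M0| / δ * ‖X - Y‖ := by positivity
    linarith
  · have h2 := hM0 _ mX
    have h3 := hM0 _ mY
    simp only [Real.norm_eq_abs] at h2 h3
    have h5 : 2 * |M0| ≤ 2 * |M0| / δ * ‖X - Y‖ := by
      rw [div_mul_eq_mul_div, le_div_iff₀ hδ]
      exact mul_le_mul_of_nonneg_left h (by positivity)
    have h6 := (abs_le.1 h2).1
    have h7 := (abs_le.1 h3).2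
    have h8 := le_abs_self M0
    linarith

variable {T : Set (Cn n)} {w : ℕ → Cn n → ℝ} {Z : ℕ → Cn n → E} {P : Cn n → E}

/-- Closed conditions pass to the weighted limit. -/
theorem WG.closed [ProperSpace E] (h : WG T w Z P) {Φ : Cn n → E → ℝ}
    (hΦ : ContinuousOn (fun q : Cn n × E => Φ q.1 q.2) (T ×ˢ univ))
    {F : ℕ → Cn n → ℝ} (hE : ∀ j, ContinuousOn (F j) T)
    (hle : ∀ j, ∀ x ∈ T, Φ x (Z j x) ≤ F j x)
    (hlim : ∀ C ⊆ T, IsCompact C → Tendsto (fun j => ∫ x in C, w j x * F j x) atTop (𝓝 0)) :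
    ∀ x ∈ T, Φ x (P x) ≤ 0 := by
  have hFc : ContinuousOn (fun x => Φ x (P x)) T :=
    hΦ.comp (continuousOn_id.prodMk h.Pc) fun x hx => ⟨hx, mem_univ _⟩
  have main : ∀ η > 0, ∀ x ∈ T, Φ x (P x) - η ≤ 0 := by
    intro η hη
    refine keyZ h.op subset_rfl h.wc h.w0 h.low (hFc.sub continuousOn_const) ?_
    intro C hCT hC
    obtain ⟨K₁, hK₁⟩ := h.bd C hCT hC
    obtain ⟨K₂, hK₂⟩ := hC.exists_bound_of_continuousOn (h.Pc.mono hCT)
    obtain ⟨M, hM0, hM⟩ := unif_lip hCT hC hΦ (max K₁ K₂) hη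
    have hdc : ∀ j, ContinuousOn (fun x => ‖Z j x - P x‖) C := fun j =>
      (((h.Zc j).sub h.Pc).norm).mono hCT
    refine ⟨1, fun j x => M * ‖Z j x - P x‖ + F j x, ?_, ?_, ?_⟩
    · intro j
      exact (continuousOn_const.mul (hdc j)).add ((hE j).mono hCT)
    · intro j x hx
      have h1 := hM x hx (Z j x) (P x) ((hK₁ j x hx).trans (le_max_left _ _))
        ((hK₂ x hx).trans (le_max_right _ _))
      have h2 := hle j x (hCT hx)
      show Φ x (P x) - η ≤ 1 * (M * ‖Z j x - P x‖ + F j x)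
      linarith
    · have h1 := ((h.conv C hCT hC).const_mul M).add (hlim C hCT hC)
      rw [mul_zero, add_zero] at h1
      refine h1.congr fun j => ?_
      rw [← integral_const_mul, ← integral_add]
      · refine integral_congr_ae (Filter.Eventually.of_forall fun x => ?_)
        simp only
        ring
      · exact ((((h.wc j).mono hCT).mul (hdc j)).integrableOn_compact hC).const_mul _
      · exact (((h.wc j).mono hCT).mul ((hE j).mono hCT)).integrableOn_compact hC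
  intro x hx
  refine le_of_forall_pos_le_add fun η hη => ?_
  have := main η hη x hx
  linarith

/-- Change of variables: the transported error tends to zero. -/
theorem WG.lim_arrow (h : WG T w Z P) {U : Set (Cn n)} {τ : Cn n → Cn n} (hU : IsOpen U)
    (hUT : U ⊆ T) (hτ : DifferentiableOn ℂ τ U) (hmap : MapsTo τ U T)
    (hdet : ∀ x ∈ U, (fderiv ℂ τ x).det ≠ 0) (hinv : ∀ j, ∀ x ∈ U, w j (τ x) = w j x)
    {C : Set (Cn n)} (hCU : C ⊆ U) (hC : IsCompact C) (hinj : InjOn τ C) :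
    Tendsto (fun j => ∫ x in C, w j x * ‖Z j (τ x) - P (τ x)‖) atTop (𝓝 0) := by
  have hτc : ContinuousOn τ U := hτ.continuousOn
  have hcont : ContinuousOn (fun z => ‖(fderiv ℂ τ z).det‖ ^ 2) U := by
    have h3 : ContinuousOn (fderiv ℂ τ) U := (holo_fderiv hU hτ).continuousOn
    exact ((ContinuousLinearMap.continuous_det.comp_continuousOn h3).norm).pow 2
  have hci : ContinuousOn (fun z => (‖(fderiv ℂ τ z).det‖ ^ 2)⁻¹) C :=
    (hcont.mono hCU).inv₀ fun z hz => by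
      have := hdet z (hCU hz)
      positivity
  obtain ⟨m, hm⟩ := hC.exists_bound_of_continuousOn hci
  have hCm : MeasurableSet C := hC.isClosed.measurableSet
  have himT : τ '' C ⊆ T := by
    rintro _ ⟨x, hx, rfl⟩
    exact hmap (hCU hx)
  have himc : IsCompact (τ '' C) := hC.image_of_continuousOn (hτc.mono hCU)
  have hDc : ∀ j, ContinuousOn (fun x => ‖Z j x - P x‖) T := fun j => ((h.Zc j).sub h.Pc).norm
  have hd : ∀ x ∈ C, HasFDerivWithinAt τ ((fderiv ℂ τ x).restrictScalars ℝ) C x := by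
    intro x hx
    exact ((hτ.differentiableAt (hU.mem_nhds (hCU hx))).hasFDerivAt.restrictScalars
      ℝ).hasFDerivWithinAt
  have hdetr : ∀ x, |((fderiv ℂ τ x).restrictScalars ℝ).det| = ‖(fderiv ℂ τ x).det‖ ^ 2 := by
    intro x
    rw [Pool.Agent.Helper36.Abund.det_restrictScalars_eq, abs_of_nonneg (by positivity)]
  have hle : ∀ j, ∫ x in C, w j x * ‖Z j (τ x) - P (τ x)‖ ≤
      |m| * ∫ x in τ '' C, w j x * ‖Z j x - P x‖ := by
    intro j
    rw [integral_image_eq_integral_abs_det_fderiv_smul (volume : Measure (Cn n)) hCm hd hinj,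
      ← integral_const_mul]
    have c1 : ContinuousOn (fun x => ‖Z j (τ x) - P (τ x)‖) C :=
      (hDc j).comp (hτc.mono hCU) fun x hx => hmap (hCU hx)
    have c2 : ContinuousOn (fun x => w j (τ x)) C :=
      (h.wc j).comp (hτc.mono hCU) fun x hx => hmap (hCU hx)
    have i1 : IntegrableOn (fun x => w j x * ‖Z j (τ x) - P (τ x)‖) C :=
      (((h.wc j).mono (hCU.trans hUT)).mul c1).integrableOn_compact hC
    have i2 : IntegrableOn (fun x => |m| * |((fderiv ℂ τ x).restrictScalars ℝ).det| •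
        (w j (τ x) * ‖Z j (τ x) - P (τ x)‖)) C := by
      simp only [hdetr, smul_eq_mul]
      exact (continuousOn_const.mul ((hcont.mono hCU).mul (c2.mul c1))).integrableOn_compact hC
    refine setIntegral_mono_on i1 i2 hCm fun x hx => ?_
    have hxU := hCU hx
    rw [hdetr, smul_eq_mul, hinv j x hxU]
    have h1 : (‖(fderiv ℂ τ x).det‖ ^ 2)⁻¹ ≤ |m| :=
      ((le_abs_self _).trans (hm x hx)).trans (le_abs_self m)
    have h2 : 0 < ‖(fderiv ℂ τ x).det‖ ^ 2 := by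
      have := hdet x hxU
      positivity
    have h3 : 1 ≤ |m| * ‖(fderiv ℂ τ x).det‖ ^ 2 := by
      calc (1 : ℝ) = (‖(fderiv ℂ τ x).det‖ ^ 2)⁻¹ * ‖(fderiv ℂ τ x).det‖ ^ 2 :=
            (inv_mul_cancel₀ h2.ne').symm
        _ ≤ _ := mul_le_mul_of_nonneg_right h1 h2.le
    have h4 : 0 ≤ w j x * ‖Z j (τ x) - P (τ x)‖ :=
      mul_nonneg (h.w0 j x (hUT hxU)) (norm_nonneg _)
    calc w j x * ‖Z j (τ x) - P (τ x)‖ = 1 * (w j x * ‖Z j (τ x) - P (τ x)‖) :=
          (one_mul _).symm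
      _ ≤ (|m| * ‖(fderiv ℂ τ x).det‖ ^ 2) * (w j x * ‖Z j (τ x) - P (τ x)‖) :=
          mul_le_mul_of_nonneg_right h3 h4
      _ = _ := by ring
  have hge : ∀ j, 0 ≤ ∫ x in C, w j x * ‖Z j (τ x) - P (τ x)‖ := fun j =>
    setIntegral_nonneg hCm fun x hx =>
      mul_nonneg (h.w0 j x (hUT (hCU hx))) (norm_nonneg _)
  have hlim := (h.conv _ himT himc).const_mul |m|
  rw [mul_zero] at hlim
  exact squeeze_zero hge hle hlim

/-- The pair of the field and its pull back. -/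
theorem WG.pair (h : WG T w Z P) {U : Set (Cn n)} {τ : Cn n → Cn n} (hU : IsOpen U)
    (hUT : U ⊆ T) (hτ : DifferentiableOn ℂ τ U) (hmap : MapsTo τ U T)
    (hdet : ∀ x ∈ U, (fderiv ℂ τ x).det ≠ 0) (hinv : ∀ j, ∀ x ∈ U, w j (τ x) = w j x)
    (hinj : InjOn τ U) :
    WG U w (fun j x => (Z j x, Z j (τ x))) (fun x => (P x, P (τ x))) := by
  have hτc : ContinuousOn τ U := hτ.continuousOn
  have hZτ : ∀ j, ContinuousOn (fun x => Z j (τ x)) U := fun j => (h.Zc j).comp hτc hmap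
  have hPτ : ContinuousOn (fun x => P (τ x)) U := h.Pc.comp hτc hmap
  refine ⟨hU, fun j => (h.wc j).mono hUT, fun j x hx => h.w0 j x (hUT hx),
    fun j => ((h.Zc j).mono hUT).prodMk (hZτ j), (h.Pc.mono hUT).prodMk hPτ, ?_, ?_,
    fun C hC hCc hv => h.low C (hC.trans hUT) hCc hv⟩
  · intro C hC hCc
    have himT : τ '' C ⊆ T := by
      rintro _ ⟨x, hx, rfl⟩
      exact hmap (hC hx)
    obtain ⟨B₁, hB₁⟩ := h.bd C (hC.trans hUT) hCc
    obtain ⟨B₂, hB₂⟩ := h.bd _ himT (hCc.image_of_continuousOn (hτc.mono hC))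
    refine ⟨max B₁ B₂, fun j x hx => ?_⟩
    rw [Prod.norm_def]
    exact max_le_max (hB₁ j x hx) (hB₂ j _ ⟨x, hx, rfl⟩)
  · intro C hC hCc
    have hwC : ∀ j, ContinuousOn (w j) C := fun j => (h.wc j).mono (hC.trans hUT)
    have hc1 : ∀ j, ContinuousOn (fun x => ‖Z j x - P x‖) C := fun j =>
      (((h.Zc j).sub h.Pc).norm).mono (hC.trans hUT)
    have hc2 : ∀ j, ContinuousOn (fun x => ‖Z j (τ x) - P (τ x)‖) C := fun j =>
      (((hZτ j).sub hPτ).norm).mono hC
    have h1 := (h.conv C (hC.trans hUT) hCc).add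
      (h.lim_arrow hU hUT hτ hmap hdet hinv hC hCc (hinj.mono hC))
    rw [add_zero] at h1
    refine squeeze_zero (fun j => setIntegral_nonneg hCc.measurableSet fun x hx =>
      mul_nonneg (h.w0 j x (hUT (hC hx))) (norm_nonneg _)) (fun j => ?_) h1
    have i1 : IntegrableOn (fun x => w j x * ‖Z j x - P x‖) C :=
      ((hwC j).mul (hc1 j)).integrableOn_compact hCc
    have i2 : IntegrableOn (fun x => w j x * ‖Z j (τ x) - P (τ x)‖) C :=
      ((hwC j).mul (hc2 j)).integrableOn_compact hCc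
    rw [← integral_add i1 i2]
    refine setIntegral_mono_on ?_ (i1.add i2) hCc.measurableSet fun x hx => ?_
    · refine ((hwC j).mul ?_).integrableOn_compact hCc
      exact (((((h.Zc j).mono hUT).prodMk (hZτ j)).sub
        ((h.Pc.mono hUT).prodMk hPτ)).norm).mono hC
    · rw [← mul_add]
      refine mul_le_mul_of_nonneg_left ?_ (h.w0 j x (hUT (hC hx)))
      rw [Prod.norm_def]
      simp only [Prod.fst_sub, Prod.snd_sub]
      exact max_le (le_add_of_nonneg_right (norm_nonneg _)) (le_add_of_nonneg_left (norm_nonneg _))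

/-- Restriction of a local arrow to a neighbourhood on which it is injective, with the pair field. -/
theorem WG.arrow (h : WG T w Z P) {G : Type u} [Group G] {R : G → Cn n → Cn n → Prop}
    (hARRB : S_ARRB.{u}) (hE : Et T R) (hinv : ∀ j γ x y, R γ x y → w j y = w j x)
    {U : Set (Cn n)} {τ : Cn n → Cn n} {γ : G} (harr : LAr R γ U τ) {x₀ : Cn n} (hx₀ : x₀ ∈ U) :
    ∃ V ⊆ U, IsOpen V ∧ x₀ ∈ V ∧ V ⊆ T ∧ MapsTo τ V T ∧ DifferentiableOn ℂ τ V ∧
      WG V w (fun j x => (Z j x, Z j (τ x))) (fun x => (P x, P (τ x))) := by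
  obtain ⟨hUo, hτd, hγ⟩ := harr
  have hmem : ∀ x ∈ U, x ∈ T ∧ τ x ∈ T := fun x hx => hE.mem γ x (τ x) (hγ x hx)
  obtain ⟨hA1, hA2, hA3, -⟩ := hARRB T R hE
  obtain ⟨U₁, τ₁, σ, hxU₁, hU₁T, hL₁, hτ₁, hinj₁, -⟩ := hA1 γ x₀ (τ x₀) (hγ x₀ hx₀)
  have hev := hA3 γ U U₁ τ τ₁ ⟨hUo, hτd, hγ⟩ hL₁ x₀ hx₀ hxU₁ hτ₁.symm
  obtain ⟨V, hV, hVo, hxV⟩ := _root_.mem_nhds_iff.mp
    (Filter.inter_mem hev (Filter.inter_mem (hUo.mem_nhds hx₀) (hL₁.1.mem_nhds hxU₁)))
  have hVU : V ⊆ U := fun x hx => (hV hx).2.1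
  have hinj : InjOn τ V := by
    intro x hx y hy hxy
    have e1 : τ x = τ₁ x := (hV hx).1
    have e2 : τ y = τ₁ y := (hV hy).1
    exact hinj₁ (hV hx).2.2 (hV hy).2.2 (by rw [← e1, ← e2, hxy])
  refine ⟨V, hVU, hVo, hxV, fun x hx => (hmem x (hVU hx)).1, fun x hx => (hmem x (hVU hx)).2,
    hτd.mono hVU, ?_⟩
  exact h.pair hVo (fun x hx => (hmem x (hVU hx)).1) (hτd.mono hVU)
    (fun x hx => (hmem x (hVU hx)).2) (fun x hx => (hA2 γ U τ ⟨hUo, hτd, hγ⟩ x (hVU hx)).1)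
    (fun j x hx => hinv j γ x (τ x) (hγ x (hVU hx))) hinj

/-- Invariance of functions passes to the limit. -/
theorem WG.inv_fun [ProperSpace E] (h : WG T w Z P) {G : Type u} [Group G]
    {R : G → Cn n → Cn n → Prop}
    (hARRB : S_ARRB.{u}) (hE : Et T R) (hinv : ∀ j γ x y, R γ x y → w j y = w j x)
    {Φ : Cn n → E → ℂ} (hΦ : ContinuousOn (fun q : Cn n × E => Φ q.1 q.2) (T ×ˢ univ))
    (hZ : ∀ j γ x y, R γ x y → Φ y (Z j y) = Φ x (Z j x)) :
    ∀ γ x y, R γ x y → Φ y (P y) = Φ x (P x) := by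
  intro γ x₀ y₀ hxy
  obtain ⟨U, τ, -, hx₀, -, harr, hτx, -⟩ := (hARRB T R hE).1 γ x₀ y₀ hxy
  obtain ⟨V, hVU, hVo, hxV, hVT, hmap, hτd, hW⟩ := h.arrow hARRB hE hinv harr hx₀
  have hτc : ContinuousOn τ V := hτd.continuousOn
  have hfst : ContinuousOn (fun q : Cn n × (E × E) => q.1) (V ×ˢ univ) := continuousOn_fst
  have h1 := hW.closed (Φ := fun x q => ‖Φ (τ x) q.2 - Φ x q.1‖) (F := fun _ _ => 0) ?_
    (fun j => continuousOn_const) (fun j x hx => ?_) (fun C _ _ => by simp) x₀ hxV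
  · have h2 := norm_le_zero_iff.1 h1
    rw [← hτx]
    exact sub_eq_zero.1 h2
  · refine ContinuousOn.norm (ContinuousOn.sub ?_ ?_)
    · refine hΦ.comp (f := fun q : Cn n × (E × E) => ((τ q.1, q.2.2) : Cn n × E)) ?_
        fun q hq => ⟨hmap hq.1, mem_univ _⟩
      exact (hτc.comp continuousOn_fst fun q hq => hq.1).prodMk
        (continuous_snd.comp continuous_snd).continuousOn
    · refine hΦ.comp (f := fun q : Cn n × (E × E) => ((q.1, q.2.1) : Cn n × E)) ?_
        fun q hq => ⟨hVT hq.1, mem_univ _⟩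
      exact continuousOn_fst.prodMk (continuous_fst.comp continuous_snd).continuousOn
  · have h2 := hZ j γ x (τ x) (harr.2.2 x (hVU hx))
    simp only
    rw [h2, sub_self, norm_zero]

/-- Invariance of forms passes to the limit. -/
theorem WG.inv_form [ProperSpace E] (h : WG T w Z P) {G : Type u} [Group G]
    {R : G → Cn n → Cn n → Prop}
    (hARRB : S_ARRB.{u}) (hE : Et T R) (hinv : ∀ j γ x y, R γ x y → w j y = w j x)
    {Φ : Cn n → E → Matrix (Fin n) (Fin n) ℂ}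
    (hΦ : ∀ i l, ContinuousOn (fun q : Cn n × E => Φ q.1 q.2 i l) (T ×ˢ univ))
    (hZ : ∀ j, InvH R fun x => Φ x (Z j x)) : InvH R fun x => Φ x (P x) := by
  intro U τ hArr x₀ hx₀ u v
  obtain ⟨hUo, hτd₀, γ, hγ⟩ := hArr
  have harr : LAr R γ U τ := ⟨hUo, hτd₀, hγ⟩
  obtain ⟨V, hVU, hVo, hxV, hVT, hmap, hτd, hW⟩ := h.arrow hARRB hE hinv harr hx₀
  have hτc : ContinuousOn τ V := hτd.continuousOn
  have hfc : ContinuousOn (fderiv ℂ τ) V := (holo_fderiv hVo hτd).continuousOn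
  have huc : ∀ e : Cn n, ContinuousOn (fun x => fderiv ℂ τ x e) V := fun e =>
    hfc.clm_apply continuousOn_const
  have hh : ∀ (f : Cn n × (E × E) → Matrix (Fin n) (Fin n) ℂ) (a b : Cn n × (E × E) → Cn n),
      (∀ i l, ContinuousOn (fun q => f q i l) (V ×ˢ univ)) → ContinuousOn a (V ×ˢ univ) →
      ContinuousOn b (V ×ˢ univ) →
      ContinuousOn (fun q => hermi (f q) (a q) (b q)) (V ×ˢ univ) := by
    intro f a b hf ha hb
    unfold hermi
    refine continuousOn_finsetSum _ fun i _ => continuousOn_finsetSum _ fun j _ => ?_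
    exact ((hf i j).mul ((continuous_apply i).comp_continuousOn ha)).mul
      (Complex.continuous_conj.comp_continuousOn ((continuous_apply j).comp_continuousOn hb))
  have h1 := hW.closed (Φ := fun x q => ‖hermi (Φ (τ x) q.2) (fderiv ℂ τ x u) (fderiv ℂ τ x v) -
      hermi (Φ x q.1) u v‖) (F := fun _ _ => 0) ?_
    (fun j => continuousOn_const) (fun j x hx => ?_) (fun C _ _ => by simp) x₀ hxV
  · exact sub_eq_zero.1 (norm_le_zero_iff.1 h1)
  · refine ContinuousOn.norm (ContinuousOn.sub ?_ ?_)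
    · refine hh _ _ _ (fun i l => ?_) ((huc u).comp continuousOn_fst fun q hq => hq.1)
        ((huc v).comp continuousOn_fst fun q hq => hq.1)
      refine (hΦ i l).comp (f := fun q : Cn n × (E × E) => ((τ q.1, q.2.2) : Cn n × E)) ?_
        fun q hq => ⟨hmap hq.1, mem_univ _⟩
      exact (hτc.comp continuousOn_fst fun q hq => hq.1).prodMk
        (continuous_snd.comp continuous_snd).continuousOn
    · refine hh _ _ _ (fun i l => ?_) continuousOn_const continuousOn_const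
      refine (hΦ i l).comp (f := fun q : Cn n × (E × E) => ((q.1, q.2.1) : Cn n × E)) ?_
        fun q hq => ⟨hVT hq.1, mem_univ _⟩
      exact continuousOn_fst.prodMk (continuous_fst.comp continuous_snd).continuousOn
  · have h2 := hZ j U τ ⟨hUo, hτd₀, γ, hγ⟩ x (hVU hx) u v
    simp only at h2 ⊢
    rw [h2, sub_self, norm_zero]

end Pool.Agent.Helper29.HL
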