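import Pool.Agent.Helper29.HL.WG
import Pool.Agent.Helper29.HB.GoalsB

/-!
# Weighted limits of matrix fields: WCC, WIN
-/

open Complex Metric Set Filter Topology MeasureTheory
open scoped ContDiff ComplexConjugate ComplexOrder Manifold Matrix

namespace Pool.Agent.Helper29.HL

open Pool.Agent.Helper95.Lin Pool.Agent.Helper16.Abund Pool.Agent.Helper92.Orb
  Pool.Agent.Helper10.SP Pool.Agent.Helper95.RK Pool.Agent.Helper57.HS
  Pool.Agent.Helper15.HS
open Pool.Agent.Helper29.HB (WL S_WCC S_WIN)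

universe u v

variable {n m : ℕ} {T : Set (Cn n)} {w : ℕ → Cn n → ℝ}
  {Z : ℕ → Cn n → Matrix (Fin m) (Fin m) ℂ} {P : Cn n → Matrix (Fin m) (Fin m) ℂ}

theorem norm_pi_le_sum (X : Fin m → Fin m → ℂ) : ‖X‖ ≤ ∑ a, ∑ c, ‖X a c‖ := by
  have h0 : 0 ≤ ∑ a, ∑ c, ‖X a c‖ :=
    Finset.sum_nonneg fun a _ => Finset.sum_nonneg fun c _ => norm_nonneg _
  refine (pi_norm_le_iff_of_nonneg h0).2 fun a => (pi_norm_le_iff_of_nonneg h0).2 fun c => ?_
  refine (Finset.single_le_sum (f := fun c => ‖X a c‖)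
    (fun _ _ => norm_nonneg _) (Finset.mem_univ c)).trans ?_
  exact Finset.single_le_sum (f := fun a => ∑ c, ‖X a c‖)
    (fun _ _ => Finset.sum_nonneg fun _ _ => norm_nonneg _) (Finset.mem_univ a)

theorem WL.toWG (h : WL T w Z P) :
    WG (E := Fin m → Fin m → ℂ) T w (fun j x => Matrix.of.symm (Z j x))
      (fun x => Matrix.of.symm (P x)) := by
  have hZc : ∀ j, ContinuousOn (fun x => (Matrix.of.symm (Z j x) : Fin m → Fin m → ℂ)) T :=
    fun j => continuousOn_pi.2 fun a => continuousOn_pi.2 fun c => h.Zc j a c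
  have hPc : ContinuousOn (fun x => (Matrix.of.symm (P x) : Fin m → Fin m → ℂ)) T :=
    continuousOn_pi.2 fun a => continuousOn_pi.2 fun c => h.Pc a c
  refine ⟨h.op, h.wc, h.w0, hZc, hPc, ?_, ?_, h.low⟩
  · intro C hC hCc
    obtain ⟨K, hK⟩ := h.Zb C hC hCc
    refine ⟨max K 0, fun j x hx => ?_⟩
    refine (pi_norm_le_iff_of_nonneg (le_max_right _ _)).2 fun a =>
      (pi_norm_le_iff_of_nonneg (le_max_right _ _)).2 fun c => ?_
    exact (hK j x hx a c).trans (le_max_left _ _)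
  · intro C hC hCc
    have hi : ∀ j a c, IntegrableOn (fun x => w j x * ‖Z j x a c - P x a c‖) C := fun j a c =>
      (((h.wc j).mul ((h.Zc j a c).sub (h.Pc a c)).norm).mono hC).integrableOn_compact hCc
    have h1 : Tendsto (fun j => ∑ a, ∑ c, ∫ x in C, w j x * ‖Z j x a c - P x a c‖) atTop
        (𝓝 (∑ _a : Fin m, ∑ _c : Fin m, (0 : ℝ))) :=
      tendsto_finsetSum _ fun a _ => tendsto_finsetSum _ fun c _ => h.conv C hC hCc a c
    simp only [Finset.sum_const_zero] at h1
    refine squeeze_zero (fun j => setIntegral_nonneg hCc.measurableSet fun x hx =>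
      mul_nonneg (h.w0 j x (hC hx)) (norm_nonneg _)) (fun j => ?_) h1
    have h2 : ∑ a, ∑ c, ∫ x in C, w j x * ‖Z j x a c - P x a c‖ =
        ∫ x in C, ∑ a, ∑ c, w j x * ‖Z j x a c - P x a c‖ := by
      rw [integral_finsetSum _ fun a _ => integrable_finsetSum _ fun c _ => hi j a c]
      refine Finset.sum_congr rfl fun a _ => ?_
      rw [integral_finsetSum _ fun c _ => hi j a c]
    rw [h2]
    refine setIntegral_mono_on ?_ ?_ hCc.measurableSet fun x hx => ?_
    · exact (((h.wc j).mul ((hZc j).sub hPc).norm).mono hC).integrableOn_compact hCc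
    · exact integrable_finsetSum _ fun a _ => integrable_finsetSum _ fun c _ => hi j a c
    · simp only [← Finset.mul_sum]
      refine mul_le_mul_of_nonneg_left ?_ (h.w0 j x (hC hx))
      exact norm_pi_le_sum _

/-- WCC. -/
theorem wcc : S_WCC := by
  intro n m T w Z P h Φ hΦ E hE hle hlim
  exact (WL.toWG h).closed (Φ := fun x X => Φ x (Matrix.of X)) hΦ hE hle hlim

/-- WIN. -/
theorem win (hARRB : S_ARRB.{u}) : S_WIN.{u} := by
  intro n m T G _ R hE w Z P h hinv
  refine ⟨fun Φ hΦ hZ => ?_, fun Φ hΦ hZ => ?_⟩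
  · exact (WL.toWG h).inv_fun hARRB hE hinv (Φ := fun x X => Φ x (Matrix.of X)) hΦ hZ
  · exact (WL.toWG h).inv_form hARRB hE hinv (Φ := fun x X => Φ x (Matrix.of X)) hΦ hZ

end Pool.Agent.Helper29.HL
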